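import Mathlib
import Pool.Agent.Helper58_MOO.Stmts

/-!
Amalgamation of finite level preserving partial maps (common part of PHP and PSP).
-/

open Cardinal
open Pool.Agent.Helper69_LOTS

namespace Pool.Agent.MOO.H55

open Node

/-- Finite level preserving partial maps. -/
structure Pre (T S : Set Node) (C : Set Om) (l : Finset Om) (g : Finset (Node × Node)) :
    Prop where
  levC : ∀ ξ ∈ l, ξ ∈ C
  mem : ∀ p ∈ g, p.1 ∈ T ∧ p.2 ∈ S ∧ p.2.ht = p.1.ht ∧ p.1.ht ∈ l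
  res : ∀ p ∈ g, ∀ ξ ∈ l, ξ ≤ p.1.ht → (p.1.res ξ, p.2.res ξ) ∈ g
  inj : ∀ p ∈ g, ∀ q ∈ g, p.1 = q.1 ↔ p.2 = q.2

variable {T S : Set Node} {C : Set Om}

theorem Pre.inc {l : Finset Om} {g : Finset (Node × Node)} (h : Pre T S C l g)
    {p q : Node × Node} (hp : p ∈ g) (hq : q ∈ g) (hi : Inc p.1 q.1) : Inc p.2 q.2 := by
  have key : ∀ p q : Node × Node, p ∈ g → q ∈ g → Inc p.1 q.1 → p.1.ht ≤ q.1.ht →
      Inc p.2 q.2 := by
    intro p q hp hq hi hle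
    obtain ⟨-, -, hp3, hp4⟩ := h.mem p hp
    obtain ⟨-, -, hq3, -⟩ := h.mem q hq
    have h1 := h.res q hq _ hp4 hle
    have h2 := h.inj p hp _ h1
    simp only at h2
    have h3 : p.1 ≠ q.1.res p.1.ht := by
      intro h4
      exact hi.1 (le_iff_res.2 h4.symm)
    have h5 : ¬ p.2 ≤ q.2 := by
      intro h4
      rw [le_iff_res, hp3] at h4
      exact h3 (h2.2 h4.symm)
    refine ⟨h5, fun h4 => ?_⟩
    have h6 : p.2.ht ≤ q.2.ht := by rw [hp3, hq3]; exact hle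
    exact h5 (eq_of_le_of_ht_le h4 h6).ge
  rcases le_total p.1.ht q.1.ht with h1 | h1
  · exact key p q hp hq hi h1
  · exact (key q p hq hp hi.symm h1).symm

/-- The condition `(l, g)`, with level `δ`, is of type `(l₀, g₀, ζ, R)`. -/
structure Tp (T S : Set Node) (C : Set Om) (Ex : Om → Node × Node → Prop) (l₀ : Finset Om)
    (g₀ : Finset (Node × Node)) (ζ : Om) (R : Finset (Node × Node)) (δ : Om) (l : Finset Om)
    (g : Finset (Node × Node)) : Prop where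
  pre : Pre T S C l g
  dl : δ ∈ l
  zd : ζ < δ
  l0 : ∀ ξ, ξ ∈ l₀ ↔ ξ ∈ l ∧ ξ < δ
  lz : ∀ ξ ∈ l₀, ξ < ζ
  g0 : ∀ p, p ∈ g₀ ↔ p ∈ g ∧ p.1.ht < δ
  R1 : ∀ p ∈ g, p.1.ht = δ → (p.1.res ζ, p.2.res ζ) ∈ R
  R2 : ∀ a ∈ R, ∃ p ∈ g, p.1.ht = δ ∧ a = (p.1.res ζ, p.2.res ζ)
  sep : ∀ p ∈ g, ∀ q ∈ g, p.1.ht = δ → q.1.ht = δ → p ≠ q →
    p.1.res ζ ≠ q.1.res ζ ∧ p.2.res ζ ≠ q.2.res ζ
  ex : ∀ p ∈ g, p.1.ht = δ → Ex ζ p

/-- The situation of the amalgamation. -/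
structure Am (T S : Set Node) (C : Set Om) (Ex : Om → Node × Node → Prop) (l₀ : Finset Om)
    (g₀ : Finset (Node × Node)) (ζ : Om) (R : Finset (Node × Node)) (δ : Om) (l : Finset Om)
    (g : Finset (Node × Node)) (δ' : Om) (l' : Finset Om) (g' : Finset (Node × Node)) :
    Prop where
  tp : Tp T S C Ex l₀ g₀ ζ R δ l g
  tp' : Tp T S C Ex l₀ g₀ ζ R δ' l' g'
  low : ∀ ξ ∈ l', ξ < δ
  inc : ∀ p ∈ g, p.1.ht = δ → ∀ p' ∈ g', p'.1.ht = δ' → Inc p.1 p'.1 ∧ Inc p.2 p'.2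

open Classical in
/-- The graph of the amalgam. -/
noncomputable def Gr (δ : Om) (g : Finset (Node × Node)) (δ' : Om) (l' : Finset Om)
    (g' : Finset (Node × Node)) : Finset (Node × Node) :=
  g ∪ g' ∪ ((g.filter (fun p => p.1.ht = δ)) ×ˢ (l'.filter (fun ξ => δ' ≤ ξ))).image
    (fun a => (a.1.1.res a.2, a.1.2.res a.2))

theorem mem_Gr {δ : Om} {g : Finset (Node × Node)} {δ' : Om} {l' : Finset Om}
    {g' : Finset (Node × Node)} {p : Node × Node} : p ∈ Gr δ g δ' l' g' ↔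
      p ∈ g ∨ p ∈ g' ∨ ∃ P ∈ g, P.1.ht = δ ∧ ∃ ξ ∈ l', δ' ≤ ξ ∧ p = (P.1.res ξ, P.2.res ξ) := by
  unfold Gr
  simp only [Finset.mem_union, Finset.mem_image, Finset.mem_product, Finset.mem_filter,
    Prod.exists]
  constructor
  · rintro ((h | h) | ⟨x, y, ξ, ⟨⟨h1, h2⟩, h3, h4⟩, rfl⟩)
    · exact Or.inl h
    · exact Or.inr (Or.inl h)
    · exact Or.inr (Or.inr ⟨x, y, h1, h2, ξ, h3, h4, rfl⟩)
  · rintro (h | h | ⟨x, y, h1, h2, ξ, h3, h4, rfl⟩)
    · exact Or.inl (Or.inl h)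
    · exact Or.inl (Or.inr h)
    · exact Or.inr ⟨x, y, ξ, ⟨⟨h1, h2⟩, h3, h4⟩, rfl⟩

section

variable {Ex : Om → Node × Node → Prop} {l₀ : Finset Om} {g₀ : Finset (Node × Node)} {ζ : Om}
  {R : Finset (Node × Node)} {δ : Om} {l : Finset Om} {g : Finset (Node × Node)} {δ' : Om}
  {l' : Finset Om} {g' : Finset (Node × Node)}

theorem Tp.low {p : Node × Node} (h : Tp T S C Ex l₀ g₀ ζ R δ l g) (hp : p ∈ g)
    (h1 : p.1.ht < δ) : p.1.ht < ζ :=
  h.lz _ ((h.l0 _).2 ⟨(h.pre.mem p hp).2.2.2, h1⟩)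

theorem Tp.up {p : Node × Node} (h : Tp T S C Ex l₀ g₀ ζ R δ l g) (hp : p ∈ g)
    (h1 : δ ≤ p.1.ht) : (p.1.res δ, p.2.res δ) ∈ g ∧ (p.1.res δ).ht = δ ∧
      (p.2.res δ).ht = δ ∧ (p.1.res δ).res ζ = p.1.res ζ ∧ (p.2.res δ).res ζ = p.2.res ζ := by
  refine ⟨h.pre.res p hp δ h.dl h1, res_ht_of_le h1, res_ht_of_le ?_,
    res_res_of_le _ h.zd.le, res_res_of_le _ h.zd.le⟩
  rw [(h.pre.mem p hp).2.2.1]
  exact h1

theorem Am.dd (h : Am T S C Ex l₀ g₀ ζ R δ l g δ' l' g') : δ' < δ := h.low _ h.tp'.dl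

theorem Am.pre (hT : IsTree T) (hS : IsTree S)
    (h : Am T S C Ex l₀ g₀ ζ R δ l g δ' l' g') :
    Pre T S C (l ∪ l') (Gr δ g δ' l' g') := by
  -- elements of `g'` of height at least `δ'` are not restrictions of elements of height `δ`
  have key : ∀ p ∈ g', ∀ P ∈ g, P.1.ht = δ → ∀ ξ ∈ l', δ' ≤ ξ →
      p.1 ≠ P.1.res ξ ∧ p.2 ≠ P.2.res ξ := by
    intro p hp P hP hPδ ξ hξ hξ'
    obtain ⟨-, -, h3, h4⟩ := h.tp'.pre.mem p hp
    obtain ⟨-, -, h5, -⟩ := h.tp.pre.mem P hP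
    have hξδ := h.low ξ hξ
    rcases lt_or_ge p.1.ht δ' with h6 | h6
    · constructor
      · intro h7
        have h8 := congrArg Node.ht h7
        rw [res_ht_of_le (by rw [hPδ]; exact hξδ.le)] at h8
        rw [h8] at h6
        exact absurd h6 (not_lt.2 hξ')
      · intro h7
        have h8 := congrArg Node.ht h7
        rw [res_ht_of_le (by rw [h5, hPδ]; exact hξδ.le), h3] at h8
        rw [h8] at h6
        exact absurd h6 (not_lt.2 hξ')
    · obtain ⟨h7, h8, h9, -, -⟩ := h.tp'.up hp h6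
      obtain ⟨h10, h11⟩ := h.inc P hP hPδ _ h7 h8
      constructor
      · intro h12
        exact h10.2 ((res_le _ _).trans (h12.le.trans (res_le _ _)))
      · intro h12
        exact h11.2 ((res_le _ _).trans (h12.le.trans (res_le _ _)))
  have hl0 : ∀ ξ, ξ ∈ l → ξ < δ → ξ ∈ l' ∧ ξ < δ' := fun ξ h1 h2 =>
    (h.tp'.l0 ξ).1 ((h.tp.l0 ξ).2 ⟨h1, h2⟩)
  have hl0' : ∀ ξ, ξ ∈ l' → ξ < δ' → ξ ∈ l := fun ξ h1 h2 =>
    ((h.tp.l0 ξ).1 ((h.tp'.l0 ξ).2 ⟨h1, h2⟩)).1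
  have hg0 : ∀ p, p ∈ g → p.1.ht < δ → p ∈ g' ∧ p.1.ht < δ' := fun ξ h1 h2 =>
    (h.tp'.g0 ξ).1 ((h.tp.g0 ξ).2 ⟨h1, h2⟩)
  have hg0' : ∀ p, p ∈ g' → p.1.ht < δ' → p ∈ g := fun ξ h1 h2 =>
    ((h.tp.g0 ξ).1 ((h.tp'.g0 ξ).2 ⟨h1, h2⟩)).1
  have hht' : ∀ p ∈ g', p.1.ht < δ := fun p hp => h.low _ (h.tp'.pre.mem p hp).2.2.2
  have hnew : ∀ P ∈ g, P.1.ht = δ → ∀ ξ ∈ l', (P.1.res ξ).ht = ξ ∧ (P.2.res ξ).ht = ξ := by
    intro P hP hPδ ξ hξ
    have hξδ := h.low ξ hξ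
    refine ⟨res_ht_of_le (by rw [hPδ]; exact hξδ.le), res_ht_of_le ?_⟩
    rw [(h.tp.pre.mem P hP).2.2.1, hPδ]
    exact hξδ.le
  refine ⟨?_, ?_, ?_, ?_⟩
  · intro ξ hξ
    rcases Finset.mem_union.1 hξ with h1 | h1
    · exact h.tp.pre.levC ξ h1
    · exact h.tp'.pre.levC ξ h1
  · intro p hp
    rcases mem_Gr.1 hp with h1 | h1 | ⟨P, hP, hPδ, ξ, hξ, hξ', rfl⟩
    · obtain ⟨h2, h3, h4, h5⟩ := h.tp.pre.mem p h1
      exact ⟨h2, h3, h4, Finset.mem_union_left _ h5⟩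
    · obtain ⟨h2, h3, h4, h5⟩ := h.tp'.pre.mem p h1
      exact ⟨h2, h3, h4, Finset.mem_union_right _ h5⟩
    · obtain ⟨h2, h3, h4, h5⟩ := h.tp.pre.mem P hP
      obtain ⟨h6, h7⟩ := hnew P hP hPδ ξ hξ
      exact ⟨hT _ h2 ξ, hS _ h3 ξ, h7.trans h6.symm, Finset.mem_union_right _ (h6.symm ▸ hξ)⟩
  · intro p hp ξ hξ hξp
    rcases mem_Gr.1 hp with h1 | h1 | ⟨P, hP, hPδ, η, hη, hη', rfl⟩
    · rcases lt_or_ge p.1.ht δ with h2 | h2
      · have h3 := hg0 p h1 h2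
        have h4 : ξ ∈ l' := by
          rcases Finset.mem_union.1 hξ with h5 | h5
          · exact (hl0 ξ h5 (hξp.trans_lt h2)).1
          · exact h5
        exact mem_Gr.2 (Or.inr (Or.inl (h.tp'.pre.res p h3.1 ξ h4 hξp)))
      · rcases Finset.mem_union.1 hξ with h5 | h5
        · exact mem_Gr.2 (Or.inl (h.tp.pre.res p h1 ξ h5 hξp))
        · rcases lt_or_ge ξ δ' with h6 | h6
          · exact mem_Gr.2 (Or.inl (h.tp.pre.res p h1 ξ (hl0' ξ h5 h6) hξp))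
          · obtain ⟨h7, h8, h9, -, -⟩ := h.tp.up h1 h2
            refine mem_Gr.2 (Or.inr (Or.inr ⟨_, h7, h8, ξ, h5, h6, ?_⟩))
            simp only
            rw [res_res_of_le _ (h.low ξ h5).le, res_res_of_le _ (h.low ξ h5).le]
    · have h4 : ξ ∈ l' := by
        rcases Finset.mem_union.1 hξ with h5 | h5
        · exact (hl0 ξ h5 (hξp.trans_lt (hht' p h1))).1
        · exact h5
      exact mem_Gr.2 (Or.inr (Or.inl (h.tp'.pre.res p h1 ξ h4 hξp)))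
    · obtain ⟨h6, h7⟩ := hnew P hP hPδ η hη
      simp only at hξp ⊢
      rw [h6] at hξp
      rw [res_res_of_le _ hξp, res_res_of_le _ hξp]
      have hξδ : ξ < δ := hξp.trans_lt (h.low η hη)
      rcases lt_or_ge ξ δ' with h8 | h8
      · have h9 : ξ ∈ l := by
          rcases Finset.mem_union.1 hξ with h5 | h5
          · exact h5
          · exact hl0' ξ h5 h8
        exact mem_Gr.2 (Or.inl (h.tp.pre.res P hP ξ h9 (by rw [hPδ]; exact hξδ.le)))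
      · have h9 : ξ ∈ l' := by
          rcases Finset.mem_union.1 hξ with h5 | h5
          · exact (hl0 ξ h5 hξδ).1
          · exact h5
        exact mem_Gr.2 (Or.inr (Or.inr ⟨P, hP, hPδ, ξ, h9, h8, rfl⟩))
  · have hgg : ∀ p ∈ g, ∀ q ∈ g', p.1 = q.1 ↔ p.2 = q.2 := by
      intro p hp q hq
      rcases lt_or_ge p.1.ht δ with h2 | h2
      · exact h.tp'.pre.inj p (hg0 p hp h2).1 q hq
      · constructor
        · intro h3
          rw [h3] at h2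
          exact absurd (hht' q hq) (not_lt.2 h2)
        · intro h3
          have h4 := congrArg Node.ht h3
          rw [(h.tp.pre.mem p hp).2.2.1, (h.tp'.pre.mem q hq).2.2.1] at h4
          rw [h4] at h2
          exact absurd (hht' q hq) (not_lt.2 h2)
    have hgn : ∀ p ∈ g, ∀ P ∈ g, P.1.ht = δ → ∀ ξ ∈ l', δ' ≤ ξ →
        p.1 ≠ P.1.res ξ ∧ p.2 ≠ P.2.res ξ := by
      intro p hp P hP hPδ ξ hξ hξ'
      obtain ⟨h6, h7⟩ := hnew P hP hPδ ξ hξ
      have hξδ := h.low ξ hξ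
      have h8 : p.1.ht ≠ ξ := by
        intro h9
        rw [← h9] at hξδ hξ'
        exact absurd (hg0 p hp hξδ).2 (not_lt.2 hξ')
      refine ⟨fun h9 => h8 (by rw [h9, h6]), fun h9 => h8 ?_⟩
      rw [← (h.tp.pre.mem p hp).2.2.1, h9, h7]
    intro p hp q hq
    rcases mem_Gr.1 hp with h1 | h1 | ⟨P, hP, hPδ, ξ, hξ, hξ', rfl⟩ <;>
      rcases mem_Gr.1 hq with h2 | h2 | ⟨Q, hQ, hQδ, η, hη, hη', rfl⟩
    · exact h.tp.pre.inj p h1 q h2
    · exact hgg p h1 q h2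
    · have := hgn p h1 Q hQ hQδ η hη hη'
      exact ⟨fun h => absurd h this.1, fun h => absurd h this.2⟩
    · exact ⟨fun h3 => ((hgg q h2 p h1).1 h3.symm).symm,
        fun h3 => ((hgg q h2 p h1).2 h3.symm).symm⟩
    · exact h.tp'.pre.inj p h1 q h2
    · have := key p h1 Q hQ hQδ η hη hη'
      exact ⟨fun h => absurd h this.1, fun h => absurd h this.2⟩
    · have := hgn q h2 P hP hPδ ξ hξ hξ'
      exact ⟨fun h => absurd h.symm this.1, fun h => absurd h.symm this.2⟩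
    · have := key q h2 P hP hPδ ξ hξ hξ'
      exact ⟨fun h => absurd h.symm this.1, fun h => absurd h.symm this.2⟩
    · obtain ⟨h3, h4⟩ := hnew P hP hPδ ξ hξ
      obtain ⟨h5, h6⟩ := hnew Q hQ hQδ η hη
      simp only
      by_cases hPQ : P = Q
      · subst hPQ
        by_cases hξη : ξ = η
        · subst hξη
          exact ⟨fun _ => rfl, fun _ => rfl⟩
        · constructor
          · intro h7
            exact absurd (by rw [← h3, h7, h5]) hξη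
          · intro h7
            exact absurd (by rw [← h4, h7, h6]) hξη
      · obtain ⟨h7, h8⟩ := h.tp.sep P hP Q hQ hPδ hQδ hPQ
        have hζξ : ζ ≤ ξ := h.tp'.zd.le.trans hξ'
        have hζη : ζ ≤ η := h.tp'.zd.le.trans hη'
        constructor
        · intro h9
          apply absurd _ h7
          rw [← res_res_of_le P.1 hζξ, h9, res_res_of_le _ hζη]
        · intro h9
          apply absurd _ h8
          rw [← res_res_of_le P.2 hζξ, h9, res_res_of_le _ hζη]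

/-- Every element of the graph is a restriction of an element of `g` or of `g'`. -/
theorem Am.dom (_ : Am T S C Ex l₀ g₀ ζ R δ l g δ' l' g') {p : Node × Node}
    (hp : p ∈ Gr δ g δ' l' g') : ∃ P, (P ∈ g ∨ P ∈ g') ∧ p.1 ≤ P.1 ∧ p.2 ≤ P.2 := by
  rcases mem_Gr.1 hp with h1 | h1 | ⟨P, hP, hPδ, ξ, hξ, hξ', rfl⟩
  · exact ⟨p, Or.inl h1, le_rfl, le_rfl⟩
  · exact ⟨p, Or.inr h1, le_rfl, le_rfl⟩
  · exact ⟨P, Or.inl hP, res_le _ _, res_le _ _⟩

/-- Replacement of an element of `g'` by an element of `g`. -/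
theorem Am.repl (h : Am T S C Ex l₀ g₀ ζ R δ l g δ' l' g') {p : Node × Node}
    (hp : p ∈ g ∨ p ∈ g') : ∃ P ∈ g, P.1.res ζ = p.1.res ζ ∧ P.2.res ζ = p.2.res ζ := by
  rcases hp with h1 | h1
  · exact ⟨p, h1, rfl, rfl⟩
  · rcases lt_or_ge p.1.ht δ' with h2 | h2
    · exact ⟨p, ((h.tp.g0 p).1 ((h.tp'.g0 p).2 ⟨h1, h2⟩)).1, rfl, rfl⟩
    · obtain ⟨h3, h4, h5, h6, h7⟩ := h.tp'.up h1 h2
      have h8 := h.tp'.R1 _ h3 h4
      obtain ⟨P, hP, hPδ, h9⟩ := h.tp.R2 _ h8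
      simp only [Prod.mk.injEq] at h9
      exact ⟨P, hP, h9.1.symm.trans h6, h9.2.symm.trans h7⟩

/-- Elements of `g` with incomparable restrictions have images with incomparable
restrictions. -/
theorem Tp.incz (h : Tp T S C Ex l₀ g₀ ζ R δ l g) {p q : Node × Node} (hp : p ∈ g) (hq : q ∈ g)
    (hi : Inc (p.1.res ζ) (q.1.res ζ)) : Inc (p.2.res ζ) (q.2.res ζ) := by
  have hi' : Inc p.1 q.1 := hi.mono (res_le _ _) (res_le _ _)
  have hi2 := h.pre.inc hp hq hi'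
  have key : ∀ p q : Node × Node, p ∈ g → q ∈ g → Inc p.2 q.2 → p.1.ht < δ →
      Inc (p.2.res ζ) (q.2.res ζ) := by
    intro p q hp hq hi2 h1
    have h2 := h.low hp h1
    have h3 : p.2.ht < ζ := by rw [(h.pre.mem p hp).2.2.1]; exact h2
    rw [res_of_le h3.le]
    refine ⟨fun h4 => hi2.1 (h4.trans (res_le _ _)), fun h4 => ?_⟩
    rcases le_total ζ q.2.ht with h5 | h5
    · have h6 := h4.1
      rw [res_ht_of_le h5] at h6
      exact absurd h3 (not_lt.2 h6)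
    · rw [res_of_le h5] at h4
      exact hi2.2 h4
  rcases lt_or_ge p.1.ht δ with h1 | h1
  · exact key p q hp hq hi2 h1
  · rcases lt_or_ge q.1.ht δ with h2 | h2
    · exact (key q p hq hp hi2.symm h2).symm
    · obtain ⟨h3, h4, h5, h6, h7⟩ := h.up hp h1
      obtain ⟨h3', h4', h5', h6', h7'⟩ := h.up hq h2
      have h8 : (p.1.res δ, p.2.res δ) ≠ (q.1.res δ, q.2.res δ) := by
        intro h9
        simp only [Prod.mk.injEq] at h9
        have h10 : p.1.res ζ = q.1.res ζ := by rw [← h6, h9.1, h6']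
        exact hi.1 h10.le
      have h9 := (h.sep _ h3 _ h3' h4 h4' h8).2
      simp only at h9
      rw [h7, h7'] at h9
      refine inc_of_ht_eq ?_ h9
      have hz : ζ ≤ δ := h.zd.le
      rw [res_ht_of_le, res_ht_of_le]
      · rw [(h.pre.mem q hq).2.2.1]; exact hz.trans h2
      · rw [(h.pre.mem p hp).2.2.1]; exact hz.trans h1

/-- The heights of the meets inside one condition. -/
theorem Tp.gap (h : Tp T S C Ex l₀ g₀ ζ R δ l g) {p q : Node × Node} (hp : p ∈ g) (hq : q ∈ g)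
    {w : Node} (hw : Mt w p.1 q.1) : w.ht < ζ ∨ δ ≤ w.ht := by
  rcases lt_or_ge p.1.ht δ with h1 | h1
  · exact Or.inl (hw.2.2.1.trans (h.low hp h1))
  · rcases lt_or_ge q.1.ht δ with h2 | h2
    · exact Or.inl (hw.2.2.2.1.trans (h.low hq h2))
    · by_contra hcon
      push Not at hcon
      obtain ⟨h3, h4, h5, h6, h7⟩ := h.up hp h1
      obtain ⟨h3', h4', h5', h6', h7'⟩ := h.up hq h2
      have h8 : (p.1.res δ, p.2.res δ) ≠ (q.1.res δ, q.2.res δ) := by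
        intro h9
        simp only [Prod.mk.injEq] at h9
        have h10 : Mt w (p.1.res δ) (q.1.res δ) := hw.res hcon.2 hcon.2
        rw [h9.1] at h10
        exact h10.inc.1 le_rfl
      have h9 := (h.sep _ h3 _ h3' h4 h4' h8).1
      simp only at h9
      rw [h6, h6'] at h9
      apply h9
      rw [res_eq_of_le hw.1 hcon.1 |>.trans (res_eq_of_le hw.2.1 hcon.1).symm]

/-- Pairs of elements of `g` and `g'`. -/
theorem Am.cross (h : Am T S C Ex l₀ g₀ ζ R δ l g δ' l' g') {p q : Node × Node} (hp : p ∈ g)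
    (hq : q ∈ g') {w : Node} (hw : Mt w p.1 q.1) (hwz : ζ ≤ w.ht) :
    w.ht < δ' ∧ δ ≤ p.1.ht ∧ δ' ≤ q.1.ht := by
  have h1 : δ ≤ p.1.ht := by
    by_contra hcon
    have h2 := h.tp.low hp (not_le.1 hcon)
    exact absurd (hw.2.2.1.trans h2) (not_lt.2 hwz)
  have h2 : δ' ≤ q.1.ht := by
    by_contra hcon
    have h2 := h.tp'.low hq (not_le.1 hcon)
    exact absurd (hw.2.2.2.1.trans h2) (not_lt.2 hwz)
  refine ⟨?_, h1, h2⟩
  obtain ⟨h3, h4, h5, h6, h7⟩ := h.tp.up hp h1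
  obtain ⟨h3', h4', h5', h6', h7'⟩ := h.tp'.up hq h2
  obtain ⟨h8, -⟩ := h.inc _ h3 h4 _ h3' h4'
  simp only at h8
  obtain ⟨w', hw'⟩ := h8.exists_mt
  have h9 : w' = w := (hw'.mono (res_le _ _) (res_le _ _)).unique hw
  rw [← h9, ← h4']
  exact hw'.2.2.2.1

/-- Two elements of height at least `δ` with the same restriction to `ζ`. -/
theorem Tp.eq (h : Tp T S C Ex l₀ g₀ ζ R δ l g) {p q : Node × Node} (hp : p ∈ g) (hq : q ∈ g)
    (h1 : δ ≤ p.1.ht) (h2 : δ ≤ q.1.ht) (h3 : p.1.res ζ = q.1.res ζ) :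
    p.1.res δ = q.1.res δ ∧ p.2.res δ = q.2.res δ := by
  obtain ⟨a3, a4, a5, a6, a7⟩ := h.up hp h1
  obtain ⟨b3, b4, b5, b6, b7⟩ := h.up hq h2
  by_contra hcon
  have h8 : (p.1.res δ, p.2.res δ) ≠ (q.1.res δ, q.2.res δ) := by
    intro h9
    simp only [Prod.mk.injEq] at h9
    exact hcon h9
  have h9 := (h.sep _ a3 _ b3 a4 b4 h8).1
  simp only at h9
  rw [a6, b6] at h9
  exact h9 h3

/-- Signs depend only on the meet. -/
def SgH (g : Finset (Node × Node)) : Prop :=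
  ∀ p ∈ g, ∀ q ∈ g, ∀ p' ∈ g, ∀ q' ∈ g, ∀ w, Mt w p.1 q.1 → Mt w p'.1 q'.1 →
    Lx p.1 q.1 → Lx p'.1 q'.1 → Lx p.2 q.2 → Lx p'.2 q'.2

theorem Am.sgH (hT : IsTree T) (hS : IsTree S)
    (h : Am T S C Ex l₀ g₀ ζ R δ l g δ' l' g') (hg : SgH g) (hg' : SgH g') :
    SgH (Gr δ g δ' l' g') := by
  have hPre := h.pre hT hS
  -- reduction to elements of `g` and `g'`
  suffices H : ∀ p q p' q' : Node × Node, (p ∈ g ∨ p ∈ g') → (q ∈ g ∨ q ∈ g') →
      (p' ∈ g ∨ p' ∈ g') → (q' ∈ g ∨ q' ∈ g') → ∀ w, Mt w p.1 q.1 → Mt w p'.1 q'.1 →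
      Lx p.1 q.1 → Lx p'.1 q'.1 → Lx p.2 q.2 → Lx p'.2 q'.2 by
    intro p hp q hq p' hp' q' hq' w h1 h2 h3 h4 h5
    obtain ⟨P, hP, hP1, hP2⟩ := h.dom hp
    obtain ⟨Q, hQ, hQ1, hQ2⟩ := h.dom hq
    obtain ⟨P', hP', hP1', hP2'⟩ := h.dom hp'
    obtain ⟨Q', hQ', hQ1', hQ2'⟩ := h.dom hq'
    have h6 := H P Q P' Q' hP hQ hP' hQ' w (h1.mono hP1 hQ1) (h2.mono hP1' hQ1')
      (h3.mono hP1 hQ1) (h4.mono hP1' hQ1') (h5.mono hP2 hQ2)
    exact h6.of_le hP2' hQ2' (hPre.inc hp' hq' h4.inc)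
  have hht' : ∀ p ∈ g', p.1.ht < δ := fun p hp => h.low _ (h.tp'.pre.mem p hp).2.2.2
  intro p q p' q' hp hq hp' hq' w h1 h2 h3 h4 h5
  rcases lt_or_ge w.ht ζ with hwz | hwz
  · obtain ⟨P, hP, hP1, hP2⟩ := h.repl hp
    obtain ⟨Q, hQ, hQ1, hQ2⟩ := h.repl hq
    obtain ⟨P', hP', hP1', hP2'⟩ := h.repl hp'
    obtain ⟨Q', hQ', hQ1', hQ2'⟩ := h.repl hq'
    have e1 : Mt w (P.1.res ζ) (Q.1.res ζ) := by
      rw [hP1, hQ1]; exact h1.res hwz hwz
    have e2 : Mt w (P'.1.res ζ) (Q'.1.res ζ) := by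
      rw [hP1', hQ1']; exact h2.res hwz hwz
    have e3 : Lx P.1 Q.1 := by
      have : Lx (P.1.res ζ) (Q.1.res ζ) := by
        rw [hP1, hQ1]
        refine h3.of_le (res_le _ _) (res_le _ _) ?_
        rw [← hP1, ← hQ1]
        exact e1.inc
      exact this.mono (res_le _ _) (res_le _ _)
    have e4 : Lx P'.1 Q'.1 := by
      have : Lx (P'.1.res ζ) (Q'.1.res ζ) := by
        rw [hP1', hQ1']
        refine h4.of_le (res_le _ _) (res_le _ _) ?_
        rw [← hP1', ← hQ1']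
        exact e2.inc
      exact this.mono (res_le _ _) (res_le _ _)
    have i1 := h.tp.incz hP hQ e1.inc
    have i2 := h.tp.incz hP' hQ' e2.inc
    have e5 : Lx P.2 Q.2 := by
      have : Lx (P.2.res ζ) (Q.2.res ζ) := by
        rw [hP2, hQ2]
        refine h5.of_le (res_le _ _) (res_le _ _) ?_
        rw [← hP2, ← hQ2]
        exact i1
      exact this.mono (res_le _ _) (res_le _ _)
    have e6 := hg P hP Q hQ P' hP' Q' hQ' w (e1.mono (res_le _ _) (res_le _ _))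
      (e2.mono (res_le _ _) (res_le _ _)) e3 e4 e5
    have e7 : Lx (p'.2.res ζ) (q'.2.res ζ) := by
      rw [← hP2', ← hQ2']
      exact e6.of_le (res_le _ _) (res_le _ _) i2
    exact e7.mono (res_le _ _) (res_le _ _)
  · rcases lt_or_ge w.ht δ with hwd | hwd
    · rcases lt_or_ge w.ht δ' with hwd' | hwd'
      · -- cross pairs
        have k1 : ∀ p q : Node × Node, (p ∈ g ∨ p ∈ g') → (q ∈ g ∨ q ∈ g') → Mt w p.1 q.1 →
            (p ∈ g ∧ q ∈ g') ∨ (p ∈ g' ∧ q ∈ g) := by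
          intro p q hp hq h1
          rcases hp with hp | hp <;> rcases hq with hq | hq
          · rcases h.tp.gap hp hq h1 with h6 | h6
            · exact absurd h6 (not_lt.2 hwz)
            · exact absurd h6 (not_le.2 hwd)
          · exact Or.inl ⟨hp, hq⟩
          · exact Or.inr ⟨hp, hq⟩
          · rcases h.tp'.gap hp hq h1 with h6 | h6
            · exact absurd h6 (not_lt.2 hwz)
            · exact absurd h6 (not_le.2 hwd')
        -- an element of `g` (of `g'`) above `w` is determined by `w`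
        have k2 : ∀ p q : Node × Node, p ∈ g → q ∈ g → δ ≤ p.1.ht → δ ≤ q.1.ht → w ≤ p.1 →
            w ≤ q.1 → p.1.res δ = q.1.res δ ∧ p.2.res δ = q.2.res δ := by
          intro p q hp hq a1 a2 a3 a4
          exact h.tp.eq hp hq a1 a2 ((res_eq_of_le a3 hwz).trans (res_eq_of_le a4 hwz).symm)
        have k3 : ∀ p q : Node × Node, p ∈ g' → q ∈ g' → δ' ≤ p.1.ht → δ' ≤ q.1.ht → w ≤ p.1 →
            w ≤ q.1 → p.1.res δ' = q.1.res δ' ∧ p.2.res δ' = q.2.res δ' := by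
          intro p q hp hq a1 a2 a3 a4
          exact h.tp'.eq hp hq a1 a2 ((res_eq_of_le a3 hwz).trans (res_eq_of_le a4 hwz).symm)
        rcases k1 p q hp hq h1 with ⟨c1, c2⟩ | ⟨c1, c2⟩ <;>
          rcases k1 p' q' hp' hq' h2 with ⟨d1, d2⟩ | ⟨d1, d2⟩
        · obtain ⟨-, m1, m2⟩ := h.cross c1 c2 h1 hwz
          obtain ⟨-, n1, n2⟩ := h.cross d1 d2 h2 hwz
          obtain ⟨a1, a2, -, -, -⟩ := h.tp.up c1 m1
          obtain ⟨b1, b2, -, -, -⟩ := h.tp'.up c2 m2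
          have a3 := (h.inc _ a1 a2 _ b1 b2).2
          have a4 : Lx (p.2.res δ) (q.2.res δ') := h5.of_le (res_le _ _) (res_le _ _) a3
          rw [(k2 p p' c1 d1 m1 n1 h1.1 h2.1).2, (k3 q q' c2 d2 m2 n2 h1.2.1 h2.2.1).2] at a4
          exact a4.mono (res_le _ _) (res_le _ _)
        · obtain ⟨-, m1, m2⟩ := h.cross c1 c2 h1 hwz
          obtain ⟨-, n1, n2⟩ := h.cross d2 d1 h2.symm hwz
          have a1 := (k2 p q' c1 d2 m1 n1 h1.1 h2.2.1).1
          have a2 : p.1.val w.ht = false := h1.lx_iff.1 h3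
          have a3 : q'.1.val w.ht = true := h2.val_true (h2.lx_iff.1 h4)
          rw [← res_val_of_lt (s := p.1) hwd, a1, res_val_of_lt hwd, a3] at a2
          exact absurd a2 (by decide)
        · obtain ⟨-, m1, m2⟩ := h.cross c2 c1 h1.symm hwz
          obtain ⟨-, n1, n2⟩ := h.cross d1 d2 h2 hwz
          have a1 := (k2 p' q d1 c2 n1 m1 h2.1 h1.2.1).1
          have a2 : p'.1.val w.ht = false := h2.lx_iff.1 h4
          have a3 : q.1.val w.ht = true := h1.val_true (h1.lx_iff.1 h3)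
          rw [← res_val_of_lt (s := p'.1) hwd, a1, res_val_of_lt hwd, a3] at a2
          exact absurd a2 (by decide)
        · obtain ⟨-, m1, m2⟩ := h.cross c2 c1 h1.symm hwz
          obtain ⟨-, n1, n2⟩ := h.cross d2 d1 h2.symm hwz
          obtain ⟨a1, a2, -, -, -⟩ := h.tp.up c2 m1
          obtain ⟨b1, b2, -, -, -⟩ := h.tp'.up c1 m2
          have a3 := (h.inc _ a1 a2 _ b1 b2).2
          have a4 : Lx (p.2.res δ') (q.2.res δ) := h5.of_le (res_le _ _) (res_le _ _) a3.symm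
          rw [(k3 p p' c1 d1 m2 n2 h1.1 h2.1).2, (k2 q q' c2 d2 m1 n1 h1.2.1 h2.2.1).2] at a4
          exact a4.mono (res_le _ _) (res_le _ _)
      · -- both in `g'`
        have k1 : ∀ p q : Node × Node, (p ∈ g ∨ p ∈ g') → (q ∈ g ∨ q ∈ g') → Mt w p.1 q.1 →
            p ∈ g' ∧ q ∈ g' := by
          intro p q hp hq h1
          rcases hp with hp | hp <;> rcases hq with hq | hq
          · rcases h.tp.gap hp hq h1 with h6 | h6
            · exact absurd h6 (not_lt.2 hwz)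
            · exact absurd h6 (not_le.2 hwd)
          · exact absurd (h.cross hp hq h1 hwz).1 (not_lt.2 hwd')
          · exact absurd (h.cross hq hp h1.symm hwz).1 (not_lt.2 hwd')
          · exact ⟨hp, hq⟩
        obtain ⟨c1, c2⟩ := k1 p q hp hq h1
        obtain ⟨d1, d2⟩ := k1 p' q' hp' hq' h2
        exact hg' p c1 q c2 p' d1 q' d2 w h1 h2 h3 h4 h5
    · -- all in `g`
      have k1 : ∀ p : Node × Node, (p ∈ g ∨ p ∈ g') → w.ht < p.1.ht → p ∈ g := by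
        intro p hp h6
        rcases hp with hp | hp
        · exact hp
        · exact absurd ((hwd.trans_lt h6).trans (hht' p hp)) (lt_irrefl _)
      exact hg p (k1 p hp h1.2.2.1) q (k1 q hq h1.2.2.2.1) p' (k1 p' hp' h2.2.2.1) q'
        (k1 q' hq' h2.2.2.2.1) w h1 h2 h3 h4 h5

/-- Order preserving. -/
def SgS (g : Finset (Node × Node)) : Prop :=
  ∀ p ∈ g, ∀ q ∈ g, Lx p.1 q.1 → Lx p.2 q.2

/-- The two nodes agree at and above `ζ`. -/
def ExS (ζ : Om) (p : Node × Node) : Prop := ∀ ξ, ζ ≤ ξ → p.1.val ξ = p.2.val ξ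

theorem Am.crossS (h : Am T S C ExS l₀ g₀ ζ R δ l g δ' l' g') {p q : Node × Node} (hp : p ∈ g)
    (hq : q ∈ g') {w : Node} (hw : Mt w p.1 q.1) (hwz : ζ ≤ w.ht) :
    ∃ w', Mt w' p.2 q.2 ∧ p.2.val w'.ht = p.1.val w.ht ∧ q.2.val w'.ht = q.1.val w.ht := by
  obtain ⟨hwd', m1, m2⟩ := h.cross hp hq hw hwz
  have hwd : w.ht < δ := hwd'.trans h.dd
  obtain ⟨a1, a2, a3, a4, a5⟩ := h.tp.up hp m1
  obtain ⟨b1, b2, b3, b4, b5⟩ := h.tp'.up hq m2
  have hp2 : δ ≤ p.2.ht := by rw [(h.tp.pre.mem p hp).2.2.1]; exact m1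
  have hq2 : δ' ≤ q.2.ht := by rw [(h.tp'.pre.mem q hq).2.2.1]; exact m2
  -- the restrictions of the images to `ζ` agree
  have e1 : p.2.res ζ = q.2.res ζ := by
    have h8 := h.tp'.R1 _ b1 b2
    obtain ⟨P, hP, hPδ, h9⟩ := h.tp.R2 _ h8
    simp only [Prod.mk.injEq] at h9
    have h10 : P.1.res ζ = p.1.res ζ := by
      rw [← h9.1, b4, res_eq_of_le hw.2.1 hwz, res_eq_of_le hw.1 hwz]
    have h11 := (h.tp.eq hP hp hPδ.ge m1 h10).2
    rw [← a5, ← h11, res_res_of_le _ h.tp.zd.le, ← h9.2, b5]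
  have e2 : ∀ ξ, ζ ≤ ξ → ξ < δ → p.2.val ξ = p.1.val ξ := by
    intro ξ h1 h2
    have h3 := h.tp.ex _ a1 a2 ξ h1
    simp only at h3
    rw [res_val_of_lt h2, res_val_of_lt h2] at h3
    exact h3.symm
  have e3 : ∀ ξ, ζ ≤ ξ → ξ < δ' → q.2.val ξ = q.1.val ξ := by
    intro ξ h1 h2
    have h3 := h.tp'.ex _ b1 b2 ξ h1
    simp only at h3
    rw [res_val_of_lt h2, res_val_of_lt h2] at h3
    exact h3.symm
  have e4 : (p.2.res w.ht).ht = w.ht := res_ht_of_le (hwd.le.trans hp2)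
  refine ⟨p.2.res w.ht, ⟨res_le _ _, ⟨?_, ?_⟩, ?_, ?_, ?_⟩, ?_, ?_⟩
  · rw [e4]; exact hwd'.le.trans hq2
  · intro η hη
    rw [e4] at hη
    rw [res_val_of_lt hη]
    rcases lt_or_ge η ζ with h1 | h1
    · rw [← res_val_of_lt (s := p.2) h1, e1, res_val_of_lt h1]
    · rw [e2 η h1 (hη.trans hwd), e3 η h1 (hη.trans hwd'), ← hw.1.2 η hη, ← hw.2.1.2 η hη]
  · rw [e4]; exact hwd.trans_le hp2
  · rw [e4]; exact hwd'.trans_le hq2
  · rw [e4, e2 _ hwz hwd, e3 _ hwz hwd']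
    exact hw.2.2.2.2
  · rw [e4, e2 _ hwz hwd]
  · rw [e4, e3 _ hwz hwd']

theorem Am.sgS (hT : IsTree T) (hS : IsTree S)
    (h : Am T S C ExS l₀ g₀ ζ R δ l g δ' l' g') (hg : SgS g) (hg' : SgS g') :
    SgS (Gr δ g δ' l' g') := by
  have hPre := h.pre hT hS
  suffices H : ∀ p q : Node × Node, (p ∈ g ∨ p ∈ g') → (q ∈ g ∨ q ∈ g') →
      Lx p.1 q.1 → Lx p.2 q.2 by
    intro p hp q hq h3
    obtain ⟨P, hP, hP1, hP2⟩ := h.dom hp
    obtain ⟨Q, hQ, hQ1, hQ2⟩ := h.dom hq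
    have h6 := H P Q hP hQ (h3.mono hP1 hQ1)
    exact h6.of_le hP2 hQ2 (hPre.inc hp hq h3.inc)
  intro p q hp hq h3
  obtain ⟨w, h1⟩ := h3.inc.exists_mt
  rcases lt_or_ge w.ht ζ with hwz | hwz
  · obtain ⟨P, hP, hP1, hP2⟩ := h.repl hp
    obtain ⟨Q, hQ, hQ1, hQ2⟩ := h.repl hq
    have e1 : Mt w (P.1.res ζ) (Q.1.res ζ) := by
      rw [hP1, hQ1]; exact h1.res hwz hwz
    have e3 : Lx P.1 Q.1 := by
      have : Lx (P.1.res ζ) (Q.1.res ζ) := by
        rw [hP1, hQ1]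
        refine h3.of_le (res_le _ _) (res_le _ _) ?_
        rw [← hP1, ← hQ1]
        exact e1.inc
      exact this.mono (res_le _ _) (res_le _ _)
    have i1 := h.tp.incz hP hQ e1.inc
    have e6 := hg P hP Q hQ e3
    have e7 : Lx (p.2.res ζ) (q.2.res ζ) := by
      rw [← hP2, ← hQ2]
      exact e6.of_le (res_le _ _) (res_le _ _) i1
    exact e7.mono (res_le _ _) (res_le _ _)
  · rcases hp with hp | hp <;> rcases hq with hq | hq
    · exact hg p hp q hq h3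
    · obtain ⟨w', c1, c2, c3⟩ := h.crossS hp hq h1 hwz
      rw [c1.lx_iff, c2]
      exact h1.lx_iff.1 h3
    · obtain ⟨w', c1, c2, c3⟩ := h.crossS hq hp h1.symm hwz
      rw [c1.symm.lx_iff, c3]
      exact h1.lx_iff.1 h3
    · exact hg' p hp q hq h3

end

end Pool.Agent.MOO.H55
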