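import Mathlib
import Pool.Agent.Helper55_MOO.Amal

/-!
Properness of the forcings with finite level preserving partial maps (generic part).
-/

open Cardinal
open Pool.Agent.Helper69_LOTS

namespace Pool.Agent.MOO.H55

open Node

variable {T S : Set Node} {C : Set Om}

/-- Diagonal intersection of clubs attached to objects with countable levels. -/
theorem club_diag {I : Type} (bd : I → Om → Prop) (hct : ∀ ξ, {i | bd i ξ}.Countable)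
    {D : I → Set Om} (hD : ∀ i, Clb (D i)) :
    ∃ E, Clb E ∧ ∀ δ ∈ E, ∀ ξ, ξ < δ → ∀ i, bd i ξ → δ ∈ D i := by
  have h1 : ∀ ξ, ∃ E, Clb E ∧ ∀ δ ∈ E, ∀ i, bd i ξ → δ ∈ D i := by
    intro ξ
    by_cases hne : Nonempty {i | bd i ξ}
    · have : Countable {i | bd i ξ} := hct ξ
      refine ⟨_, Clb.iInter (ι := ULift.{0} {i | bd i ξ}) (C := fun i => D i.down.1)
        (fun i => hD _), ?_⟩
      intro δ hδ i hi
      exact Set.mem_iInter.1 hδ ⟨⟨i, hi⟩⟩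
    · exact ⟨Set.univ, Clb.univ, fun δ _ i hi => absurd ⟨⟨i, hi⟩⟩ hne⟩
  choose E hE hE' using h1
  exact ⟨_, Clb.diag hE, fun δ hδ ξ hξ i hi => hE' ξ δ (hδ ξ hξ) i hi⟩

theorem club_gt (β : Om) : Clb {δ | β < δ} := by
  refine ⟨fun α => ?_, fun δ h1 h2 => ?_⟩
  · obtain ⟨γ, hγ⟩ := Om_exists_gt (max α β)
    exact ⟨γ, (le_max_right _ _).trans_lt hγ, (le_max_left _ _).trans_lt hγ⟩
  · obtain ⟨ξ, hξ⟩ := h1
    obtain ⟨η, hη, -, h3⟩ := h2 ξ hξ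
    exact lt_trans hη h3

/-- Something holds for all large `ζ < δ`. -/
def Ev (δ : Om) (Φ : Om → Prop) : Prop := ∃ ζ₀, ζ₀ < δ ∧ ∀ ζ, ζ₀ ≤ ζ → ζ < δ → Φ ζ

theorem Ev.and {δ : Om} {Φ Ψ : Om → Prop} (h : Ev δ Φ) (h' : Ev δ Ψ) :
    Ev δ (fun ζ => Φ ζ ∧ Ψ ζ) := by
  obtain ⟨a, ha, ha'⟩ := h
  obtain ⟨b, hb, hb'⟩ := h'
  exact ⟨max a b, max_lt ha hb, fun ζ h1 h2 =>
    ⟨ha' ζ ((le_max_left _ _).trans h1) h2, hb' ζ ((le_max_right _ _).trans h1) h2⟩⟩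

theorem Ev.all {δ : Om} (hδ : IsLim δ) {α : Type} (s : Finset α) {Φ : α → Om → Prop}
    (h : ∀ a ∈ s, Ev δ (Φ a)) : Ev δ (fun ζ => ∀ a ∈ s, Φ a ζ) := by
  classical
  induction s using Finset.induction_on with
  | empty =>
    obtain ⟨ξ, hξ⟩ := hδ.1
    exact ⟨ξ, hξ, fun ζ _ _ a ha => absurd ha (Finset.notMem_empty _)⟩
  | insert a s ha ih =>
    have h1 := ih (fun b hb => h b (Finset.mem_insert_of_mem hb))
    have h2 := h a (Finset.mem_insert_self _ _)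
    obtain ⟨ζ₀, h3, h4⟩ := h1.and h2
    refine ⟨ζ₀, h3, fun ζ h5 h6 b hb => ?_⟩
    rcases Finset.mem_insert.1 hb with rfl | hb
    · exact (h4 ζ h5 h6).2
    · exact (h4 ζ h5 h6).1 b hb

theorem Ev.gt {δ : Om} (hδ : IsLim δ) {ξ : Om} (h : ξ < δ) : Ev δ (fun ζ => ξ < ζ) := by
  obtain ⟨η, h1, h2⟩ := hδ.2 ξ h
  exact ⟨η, h2, fun ζ h3 _ => h1.trans_le h3⟩

theorem Ev.ne {δ : Om} {s t : Node} (hs : s.ht = δ) (ht : t.ht = δ) (hne : s ≠ t) :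
    Ev δ (fun ζ => s.res ζ ≠ t.res ζ) ∨ ¬ IsLim δ := by
  by_cases hδ : IsLim δ
  · left
    obtain ⟨w, hw⟩ := (inc_of_ht_eq (hs.trans ht.symm) hne).exists_mt
    obtain ⟨η, h1, h2⟩ := hδ.2 w.ht (by rw [← hs]; exact hw.2.2.1)
    refine ⟨η, h2, fun ζ h3 _ h5 => ?_⟩
    have := hw.res (h1.trans_le h3) (h1.trans_le h3)
    rw [h5] at this
    exact this.inc.1 le_rfl
  · exact Or.inr hδ

/-- The conditions at level `δ` have a type. -/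
theorem exists_tp {Ex : Om → Node × Node → Prop}
    (hmono : ∀ ζ ζ' p, ζ ≤ ζ' → Ex ζ p → Ex ζ' p)
    (hex : ∀ δ, IsLim δ → ∀ p : Node × Node, p.1 ∈ T → p.2 ∈ S → p.1.ht = δ → p.2.ht = δ →
      ∃ ζ, ζ < δ ∧ Ex ζ p)
    {δ : Om} (hδ : IsLim δ) {l : Finset Om} {g : Finset (Node × Node)} (h : Pre T S C l g)
    (hl : δ ∈ l) : ∃ l₀ g₀ ζ R, Tp T S C Ex l₀ g₀ ζ R δ l g := by
  classical
  have e1 : Ev δ (fun ζ => ∀ ξ ∈ l.filter (fun ξ => ξ < δ), ξ < ζ) :=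
    Ev.all hδ _ (fun ξ hξ => Ev.gt hδ (Finset.mem_filter.1 hξ).2)
  have e2 : Ev δ (fun ζ => ∀ a ∈ (g ×ˢ g).filter
      (fun a => a.1.1.ht = δ ∧ a.2.1.ht = δ ∧ a.1 ≠ a.2),
      a.1.1.res ζ ≠ a.2.1.res ζ ∧ a.1.2.res ζ ≠ a.2.2.res ζ) := by
    refine Ev.all hδ _ (fun a ha => ?_)
    simp only [Finset.mem_filter, Finset.mem_product] at ha
    obtain ⟨⟨h1, h2⟩, h3, h4, h5⟩ := ha
    have h6 : a.1.1 ≠ a.2.1 := fun h7 => h5 (Prod.ext h7 ((h.inj _ h1 _ h2).1 h7))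
    have h7 : a.1.2 ≠ a.2.2 := fun h7 => h5 (Prod.ext ((h.inj _ h1 _ h2).2 h7) h7)
    exact ((Ev.ne h3 h4 h6).resolve_right (not_not.2 hδ)).and
      ((Ev.ne ((h.mem _ h1).2.2.1.trans h3) ((h.mem _ h2).2.2.1.trans h4)
        h7).resolve_right (not_not.2 hδ))
  have e3 : Ev δ (fun ζ => ∀ p ∈ g.filter (fun p => p.1.ht = δ), Ex ζ p) := by
    refine Ev.all hδ _ (fun p hp => ?_)
    obtain ⟨h1, h2⟩ := Finset.mem_filter.1 hp
    obtain ⟨h3, h4, h5, -⟩ := h.mem p h1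
    obtain ⟨ζ, h6, h7⟩ := hex δ hδ p h3 h4 h2 (h5.trans h2)
    exact ⟨ζ, h6, fun ζ' h8 _ => hmono ζ ζ' p h8 h7⟩
  obtain ⟨ζ, hζ, hζ'⟩ := (e1.and e2).and e3
  obtain ⟨⟨f1, f2⟩, f3⟩ := hζ' ζ le_rfl hζ
  refine ⟨l.filter (fun ξ => ξ < δ), g.filter (fun p => p.1.ht < δ), ζ,
    (g.filter (fun p => p.1.ht = δ)).image (fun p => (p.1.res ζ, p.2.res ζ)), h, hl, hζ, ?_,
    f1, ?_, ?_, ?_, ?_, ?_⟩
  · intro ξ
    exact Finset.mem_filter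
  · intro ξ
    exact Finset.mem_filter
  · intro p hp hp'
    exact Finset.mem_image.2 ⟨p, Finset.mem_filter.2 ⟨hp, hp'⟩, rfl⟩
  · intro a ha
    obtain ⟨p, hp, hp'⟩ := Finset.mem_image.1 ha
    obtain ⟨h1, h2⟩ := Finset.mem_filter.1 hp
    exact ⟨p, h1, h2, hp'.symm⟩
  · intro p hp q hq h1 h2 h3
    exact f2 (p, q) (Finset.mem_filter.2 ⟨Finset.mem_product.2 ⟨hp, hq⟩, h1, h2, h3⟩)
  · intro p hp h1
    exact f3 p (Finset.mem_filter.2 ⟨hp, h1⟩)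

/-- A forcing whose conditions are the partial maps with a property `Sg`. -/
structure Frc (P : Type) [Preorder P] (T S : Set Node) (C : Set Om)
    (Sg : Finset (Node × Node) → Prop) (π : P → Finset Om × Finset (Node × Node)) : Prop where
  le_iff : ∀ p q : P, q ≤ p ↔ (π p).1 ⊆ (π q).1 ∧ (π p).2 ⊆ (π q).2
  inj : Function.Injective π
  pre : ∀ p, Pre T S C (π p).1 (π p).2
  sg : ∀ p, Sg (π p).2
  surj : ∀ l g, Pre T S C l g → Sg g → ∃ p, π p = (l, g)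

/-- The amalgamation property. -/
def AmOK (T S : Set Node) (C : Set Om) (Ex : Om → Node × Node → Prop)
    (Sg : Finset (Node × Node) → Prop) : Prop :=
  ∀ l₀ g₀ ζ R δ l g δ' l' g', Am T S C Ex l₀ g₀ ζ R δ l g δ' l' g' → Sg g → Sg g' →
    Sg (Gr δ g δ' l' g')

theorem countable_finset {α : Type} {A : Set α} (hA : A.Countable) :
    {s : Finset α | ∀ x ∈ s, x ∈ A}.Countable := by
  have h1 := Set.countable_ofPred_finite_subset hA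
  refine Set.MapsTo.countable_of_injOn (f := fun s : Finset α => (s : Set α))
    (t := {t | t.Finite ∧ t ⊆ A}) ?_ ?_ h1
  · intro s hs
    exact ⟨s.finite_toSet, hs⟩
  · intro s _ t _ h
    exact Finset.coe_injective h

theorem countable_lev (hT : AT T) (ξ : Om) : {s | s ∈ T ∧ s.ht ≤ ξ}.Countable := by
  refine ((Om_Iic_countable ξ).biUnion (fun η _ => hT.lev η)).mono ?_
  intro s hs
  exact Set.mem_biUnion (show s.ht ∈ Set.Iic ξ from hs.2) ⟨hs.1, rfl⟩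

/-- The reflection lemma for a fixed type. -/
theorem refl_tp (hBMR : BmrStmt) (hT : AT T) (hS : AT S) {P : Type} [Preorder P]
    {Sg : Finset (Node × Node) → Prop} {π : P → Finset Om × Finset (Node × Node)}
    (hF : Frc P T S C Sg π) {Ex : Om → Node × Node → Prop} (hAm : AmOK T S C Ex Sg)
    (D : Set P) (l₀ : Finset Om) (g₀ : Finset (Node × Node)) (ζ : Om)
    (R : Finset (Node × Node)) :
    ∃ E, Clb E ∧ ∀ δ ∈ E, ∀ r ∈ D, Tp T S C Ex l₀ g₀ ζ R δ (π r).1 (π r).2 →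
      ∃ d ∈ D, (∀ ξ ∈ (π d).1, ξ < δ) ∧ Comp d r := by
  classical
  let top1 : Om → P → Finset Node := fun δ r => ((π r).2.filter (fun p => p.1.ht = δ)).image
    Prod.fst
  let top2 : Om → P → Finset Node := fun δ r => ((π r).2.filter (fun p => p.1.ht = δ)).image
    Prod.snd
  let 𝒲 : Set (Finset Node × Finset Node) := {w | ∃ d ∈ D, ∃ δ',
    Tp T S C Ex l₀ g₀ ζ R δ' (π d).1 (π d).2 ∧ w = (top1 δ' d, top2 δ' d)}
  have htop1 : ∀ δ' d, Tp T S C Ex l₀ g₀ ζ R δ' (π d).1 (π d).2 →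
      ∀ x ∈ top1 δ' d, x ∈ T ∧ x.ht = δ' := by
    intro δ' d hd x hx
    obtain ⟨p, hp, rfl⟩ := Finset.mem_image.1 hx
    obtain ⟨h1, h2⟩ := Finset.mem_filter.1 hp
    exact ⟨(hd.pre.mem p h1).1, h2⟩
  have htop2 : ∀ δ' d, Tp T S C Ex l₀ g₀ ζ R δ' (π d).1 (π d).2 →
      ∀ x ∈ top2 δ' d, x ∈ S ∧ x.ht = δ' := by
    intro δ' d hd x hx
    obtain ⟨p, hp, rfl⟩ := Finset.mem_image.1 hx
    obtain ⟨h1, h2⟩ := Finset.mem_filter.1 hp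
    exact ⟨(hd.pre.mem p h1).2.1, (hd.pre.mem p h1).2.2.1.trans h2⟩
  obtain ⟨C₁, hC₁, hC₁'⟩ := hBMR T S hT hS 𝒲 (by
    rintro w ⟨d, hd, δ', h1, rfl⟩
    exact ⟨fun x hx => (htop1 δ' d h1 x hx).1, fun x hx => (htop2 δ' d h1 x hx).1⟩)
  -- choose a witness for each element of `𝒲`
  have hch : ∀ w : Finset Node × Finset Node, ∃ β : Om, w ∈ 𝒲 → ∃ d ∈ D, ∃ δ',
      Tp T S C Ex l₀ g₀ ζ R δ' (π d).1 (π d).2 ∧ w = (top1 δ' d, top2 δ' d) ∧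
      ∀ ξ ∈ (π d).1, ξ < β := by
    intro w
    by_cases hw : w ∈ 𝒲
    · obtain ⟨d, hd, δ', h1, h2⟩ := hw
      obtain ⟨β, hβ⟩ := Om_bdd ((π d).1.finite_toSet.countable)
      exact ⟨β, fun _ => ⟨d, hd, δ', h1, h2, fun ξ hξ => hβ ξ hξ⟩⟩
    · exact ⟨Classical.arbitrary Om, fun h => absurd h hw⟩
  choose β hβ using hch
  obtain ⟨C₂, hC₂, hC₂'⟩ := club_diag
    (fun (w : Finset Node × Finset Node) ξ => (∀ x ∈ w.1, x ∈ T ∧ x.ht ≤ ξ) ∧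
      (∀ x ∈ w.2, x ∈ S ∧ x.ht ≤ ξ)) (fun ξ => by
      refine ((countable_finset (countable_lev hT ξ)).prod
        (countable_finset (countable_lev hS ξ))).mono ?_
      intro w hw
      exact ⟨hw.1, hw.2⟩) (D := fun w => {δ | β w < δ}) (fun w => club_gt _)
  refine ⟨(C₁ ∩ C₂) ∩ {δ | IsLim δ}, (hC₁.inter hC₂).inter Clb.lim, ?_⟩
  rintro δ ⟨⟨h1, h2⟩, h3⟩ r hr hTp
  obtain ⟨w', hw', h4, h5, h6, h7⟩ := hC₁' δ h1 (top1 δ r, top2 δ r) ⟨r, hr, δ, hTp, rfl⟩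
    (fun x hx => (htop1 δ r hTp x hx).2.ge) (fun x hx => (htop2 δ r hTp x hx).2.ge)
  obtain ⟨d, hd, δ', h8, h9, h10⟩ := hβ w' hw'
  -- a bound for the heights
  have h11 : β w' < δ := by
    have e1 : Ev δ (fun ζ => ∀ x ∈ w'.1, x.ht < ζ) :=
      Ev.all h3 _ (fun x hx => Ev.gt h3 (h4 x hx))
    have e2 : Ev δ (fun ζ => ∀ x ∈ w'.2, x.ht < ζ) :=
      Ev.all h3 _ (fun x hx => Ev.gt h3 (h5 x hx))
    obtain ⟨ξ, hξ, hξ'⟩ := e1.and e2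
    obtain ⟨f1, f2⟩ := hξ' ξ le_rfl hξ
    refine hC₂' δ h2 ξ hξ w' ⟨fun x hx => ⟨?_, (f1 x hx).le⟩, fun x hx => ⟨?_, (f2 x hx).le⟩⟩
    · rw [h9] at hx
      exact (htop1 δ' d h8 x hx).1
    · rw [h9] at hx
      exact (htop2 δ' d h8 x hx).1
  have hlow : ∀ ξ ∈ (π d).1, ξ < δ := fun ξ hξ => (h10 ξ hξ).trans h11
  refine ⟨d, hd, hlow, ?_⟩
  have hAM : Am T S C Ex l₀ g₀ ζ R δ (π r).1 (π r).2 δ' (π d).1 (π d).2 := by
    refine ⟨hTp, h8, hlow, ?_⟩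
    intro p hp hpδ p' hp' hpδ'
    rw [h9] at h6 h7
    exact ⟨h6 _ (Finset.mem_image.2 ⟨p, Finset.mem_filter.2 ⟨hp, hpδ⟩, rfl⟩) _
      (Finset.mem_image.2 ⟨p', Finset.mem_filter.2 ⟨hp', hpδ'⟩, rfl⟩),
      h7 _ (Finset.mem_image.2 ⟨p, Finset.mem_filter.2 ⟨hp, hpδ⟩, rfl⟩) _
      (Finset.mem_image.2 ⟨p', Finset.mem_filter.2 ⟨hp', hpδ'⟩, rfl⟩)⟩
  obtain ⟨q, hq⟩ := hF.surj _ _ (hAM.pre hT.down hS.down)
    (hAm _ _ _ _ _ _ _ _ _ _ hAM (hF.sg r) (hF.sg d))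
  refine ⟨q, (hF.le_iff _ _).2 ?_, (hF.le_iff _ _).2 ?_⟩
  · rw [hq]
    exact ⟨Finset.subset_union_right, fun p hp => mem_Gr.2 (Or.inr (Or.inl hp))⟩
  · rw [hq]
    exact ⟨Finset.subset_union_left, fun p hp => mem_Gr.2 (Or.inl hp)⟩

/-- The reflection lemma. -/
theorem refl_all (hBMR : BmrStmt) (hT : AT T) (hS : AT S) {P : Type} [Preorder P]
    {Sg : Finset (Node × Node) → Prop} {π : P → Finset Om × Finset (Node × Node)}
    (hF : Frc P T S C Sg π) {Ex : Om → Node × Node → Prop} (hAm : AmOK T S C Ex Sg)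
    (hmono : ∀ ζ ζ' p, ζ ≤ ζ' → Ex ζ p → Ex ζ' p)
    (hex : ∀ δ, IsLim δ → ∀ p : Node × Node, p.1 ∈ T → p.2 ∈ S → p.1.ht = δ → p.2.ht = δ →
      ∃ ζ, ζ < δ ∧ Ex ζ p) (D : Set P) :
    ∃ E, Clb E ∧ (∀ δ ∈ E, IsLim δ) ∧ ∀ δ ∈ E, ∀ r ∈ D, δ ∈ (π r).1 →
      ∃ d ∈ D, (∀ ξ ∈ (π d).1, ξ < δ) ∧ Comp d r := by
  classical
  have h1 := fun τ : (Finset Om × Finset (Node × Node)) × (Om × Finset (Node × Node)) =>
    refl_tp hBMR hT hS hF hAm D τ.1.1 τ.1.2 τ.2.1 τ.2.2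
  choose E hE hE' using h1
  obtain ⟨C₂, hC₂, hC₂'⟩ := club_diag
    (fun (τ : (Finset Om × Finset (Node × Node)) × (Om × Finset (Node × Node))) ξ =>
      ((∀ η ∈ τ.1.1, η ∈ Set.Iic ξ) ∧
        (∀ p ∈ τ.1.2, p ∈ {s | s ∈ T ∧ s.ht ≤ ξ} ×ˢ {s | s ∈ S ∧ s.ht ≤ ξ})) ∧
      (τ.2.1 ∈ Set.Iic ξ ∧
        (∀ p ∈ τ.2.2, p ∈ {s | s ∈ T ∧ s.ht ≤ ξ} ×ˢ {s | s ∈ S ∧ s.ht ≤ ξ}))) (fun ξ => by
      refine (((countable_finset (Om_Iic_countable ξ)).prod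
        (countable_finset ((countable_lev hT ξ).prod (countable_lev hS ξ)))).prod
        ((Om_Iic_countable ξ).prod
        (countable_finset ((countable_lev hT ξ).prod (countable_lev hS ξ))))).mono ?_
      intro w hw
      exact ⟨⟨hw.1.1, hw.1.2⟩, hw.2.1, hw.2.2⟩) hE
  refine ⟨C₂ ∩ {δ | IsLim δ}, hC₂.inter Clb.lim, fun δ hδ => hδ.2, ?_⟩
  rintro δ ⟨h2, h3⟩ r hr hδr
  obtain ⟨l₀, g₀, ζ, R, hTp⟩ := exists_tp hmono hex h3 (hF.pre r) hδr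
  refine hE' ((l₀, g₀), (ζ, R)) δ (hC₂' δ h2 ζ hTp.zd _ ⟨⟨?_, ?_⟩, le_refl ζ, ?_⟩) r hr hTp
  · intro η hη
    exact (hTp.lz η hη).le
  · intro p hp
    obtain ⟨h4, h5⟩ := (hTp.g0 p).1 hp
    obtain ⟨h6, h7, h8, -⟩ := hTp.pre.mem p h4
    have h9 := hTp.low h4 h5
    exact ⟨⟨h6, h9.le⟩, h7, by rw [h8]; exact h9.le⟩
  · intro a ha
    obtain ⟨p, hp, hpδ, rfl⟩ := hTp.R2 a ha
    obtain ⟨h6, h7, h8, -⟩ := hTp.pre.mem p hp
    exact ⟨⟨hT.down _ h6 _, min_le_left _ _⟩, hS.down _ h7 _, min_le_left _ _⟩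

/-- Properness, generic form. -/
theorem generic (hBMR : BmrStmt) (hT : AT T) (hS : AT S) (hC : Clb C) {P : Type} [Preorder P]
    {Sg : Finset (Node × Node) → Prop} {π : P → Finset Om × Finset (Node × Node)}
    (hF : Frc P T S C Sg π) {Ex : Om → Node × Node → Prop} (hAm : AmOK T S C Ex Sg)
    (hmono : ∀ ζ ζ' p, ζ ≤ ζ' → Ex ζ p → Ex ζ' p)
    (hex : ∀ δ, IsLim δ → ∀ p : Node × Node, p.1 ∈ T → p.2 ∈ S → p.1.ht = δ → p.2.ht = δ →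
      ∃ ζ, ζ < δ ∧ Ex ζ p) (hSg : Sg ∅) : Proper P := by
  classical
  have hP : Nonempty P := by
    obtain ⟨p, -⟩ := hF.surj ∅ ∅ ⟨by simp, by simp, by simp, by simp⟩ hSg
    exact ⟨p⟩
  have h1 := fun D : Set P => refl_all hBMR hT hS hF hAm hmono hex D
  choose E hE hElim hE' using h1
  let o : Om → Om ⊕ (P ⊕ Set P) := Sum.inl
  let i : P → Om ⊕ (P ⊕ Set P) := fun p => Sum.inr (Sum.inl p)
  let j : Set P → Om ⊕ (P ⊕ Set P) := fun D => Sum.inr (Sum.inr D)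
  have ho : Function.Injective o := Sum.inl_injective
  have hi : Function.Injective i := fun p q h => by simpa [i] using h
  have hij : Function.Injective (Sum.elim i j) := by
    rintro (p | D) (q | D') h <;> simp [i, j] at h ⊢ <;> exact h
  have c1 := Clb.cmX ho hC
  have c2 := CM.swallow (X := Om ⊕ (P ⊕ Set P)) hi (fun p => o '' ((π p).1 : Set Om))
    (fun p => ((π p).1.finite_toSet.countable).image _)
  have c3 := CM.swallow (X := Om ⊕ (P ⊕ Set P)) ho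
    (fun ξ => i '' {p | ∀ η ∈ (π p).1, η ≤ ξ}) (fun ξ => by
      refine Set.Countable.image ?_ _
      refine Set.MapsTo.countable_of_injOn (f := π)
        (t := {s | ∀ η ∈ s, η ∈ Set.Iic ξ} ×ˢ
          {s | ∀ p ∈ s, p ∈ {s | s ∈ T ∧ s.ht ≤ ξ} ×ˢ {s | s ∈ S ∧ s.ht ≤ ξ}}) ?_
        hF.inj.injOn
        ((countable_finset (Om_Iic_countable ξ)).prod
          (countable_finset ((countable_lev hT ξ).prod (countable_lev hS ξ))))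
      intro p hp
      refine ⟨hp, fun x hx => ?_⟩
      obtain ⟨h6, h7, h8, h9⟩ := (hF.pre p).mem x hx
      exact ⟨⟨h6, hp _ h9⟩, h7, by rw [h8]; exact hp _ h9⟩)
  have c4 : CM (fun M : Set (Om ⊕ (P ⊕ Set P)) => ∀ x ∈ M, ∀ D, x = j D →
      ∃ δ ∈ E D, ∀ ξ, o ξ ∈ M ↔ ξ < δ) := by
    refine CM.diag (fun x => ?_)
    rcases x with x | x | D
    · exact ⟨fun _ _ => Sum.inl (Classical.arbitrary Om), fun M _ _ D h => by simp [j] at h⟩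
    · exact ⟨fun _ _ => Sum.inl (Classical.arbitrary Om), fun M _ _ D h => by simp [j] at h⟩
    · refine (Clb.cmX ho (hE D)).mono (fun M _ hM D' h => ?_)
      have : D = D' := by simpa [j] using h
      exact this ▸ hM
  refine proper_of_ambient hij (((c1.and c2).and (c3.and c4)).mono ?_)
  rintro M - ⟨⟨⟨δ, hδC, hδ⟩, h2⟩, h3, h4⟩ p hp
  have h5 : ∀ ξ ∈ (π p).1, ξ < δ := fun ξ hξ => (hδ ξ).1 (h2 p hp ⟨ξ, hξ, rfl⟩)
  have hPre : Pre T S C (insert δ (π p).1) (π p).2 := by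
    refine ⟨?_, ?_, ?_, (hF.pre p).inj⟩
    · intro ξ hξ
      rcases Finset.mem_insert.1 hξ with rfl | hξ
      · exact hδC
      · exact (hF.pre p).levC ξ hξ
    · intro x hx
      obtain ⟨h6, h7, h8, h9⟩ := (hF.pre p).mem x hx
      exact ⟨h6, h7, h8, Finset.mem_insert_of_mem h9⟩
    · intro x hx ξ hξ hξx
      rcases Finset.mem_insert.1 hξ with rfl | hξ
      · exact absurd (h5 _ ((hF.pre p).mem x hx).2.2.2) (not_lt.2 hξx)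
      · exact (hF.pre p).res x hx ξ hξ hξx
  obtain ⟨q, hq⟩ := hF.surj _ _ hPre (hF.sg p)
  refine ⟨q, (hF.le_iff _ _).2 ?_, ?_⟩
  · rw [hq]
    exact ⟨Finset.subset_insert _ _, Finset.Subset.refl _⟩
  · intro D hD hDM r hr
    obtain ⟨r₁, hr₁, hr₁'⟩ := hD r
    have h6 : δ ∈ (π r₁).1 := by
      have h7 := ((hF.le_iff _ _).1 (hr₁'.trans hr)).1
      apply h7
      rw [hq]
      exact Finset.mem_insert_self _ _
    obtain ⟨δ', hδ', h7⟩ := h4 _ hDM D rfl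
    have h8 : δ' = δ := by
      apply le_antisymm
      · by_contra hcon
        exact lt_irrefl δ ((hδ δ).1 ((h7 δ).2 (not_le.1 hcon)))
      · by_contra hcon
        exact lt_irrefl δ' ((h7 δ').1 ((hδ δ').2 (not_le.1 hcon)))
    subst h8
    obtain ⟨d, hd, h9, h10⟩ := hE' D δ' hδ' r₁ hr₁ h6
    refine ⟨d, hd, ?_, ?_⟩
    · have e1 : Ev δ' (fun ζ => ∀ ξ ∈ (π d).1, ξ < ζ) :=
        Ev.all (hElim D δ' hδ') _ (fun x hx => Ev.gt (hElim D δ' hδ') (h9 x hx))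
      obtain ⟨ξ, hξ, hξ'⟩ := e1
      exact h3 ξ ((hδ ξ).2 hξ) ⟨d, fun η hη => (hξ' ξ le_rfl hξ η hη).le, rfl⟩
    · obtain ⟨x, hx1, hx2⟩ := h10
      exact ⟨x, hx1, hx2.trans hr₁'⟩

/-- PHP: properness of `PH`. -/
theorem php (hBMR : BmrStmt) : PhpStmt := by
  intro T S C hT hS hC
  refine generic hBMR hT hS hC (P := PH T S C) (Sg := SgH) (π := fun p => (p.lev, p.gr))
    (Ex := fun _ _ => True) ⟨fun _ _ => Iff.rfl, ?_, ?_, ?_, ?_⟩ ?_ (fun _ _ _ _ _ => trivial)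
    ?_ ?_
  · rintro ⟨l, g, _, _, _, _, _⟩ ⟨l', g', _, _, _, _, _⟩ h
    simp only [Prod.mk.injEq] at h
    obtain ⟨rfl, rfl⟩ := h
    rfl
  · exact fun p => ⟨p.levC, p.mem, p.res, p.inj⟩
  · exact fun p => p.sgn
  · intro l g h h'
    exact ⟨⟨l, g, h.levC, h.mem, h.res, h.inj, h'⟩, rfl⟩
  · intro l₀ g₀ ζ R δ l g δ' l' g' h
    exact h.sgH hT.down hS.down
  · intro δ hδ p _ _ _ _
    obtain ⟨ξ, hξ⟩ := hδ.1
    exact ⟨ξ, hξ, trivial⟩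
  · intro p hp
    exact absurd hp (Finset.notMem_empty _)

/-- PSP: properness of `PS`. -/
theorem psp (hBMR : BmrStmt) : PspStmt := by
  intro T S C hT hS hST hC
  refine generic hBMR hT.toAT hS hC (P := PS T S C) (Sg := SgS) (π := fun p => (p.lev, p.gr))
    (Ex := ExS) ⟨fun _ _ => Iff.rfl, ?_, ?_, ?_, ?_⟩ ?_ ?_ ?_ ?_
  · rintro ⟨l, g, _, _, _, _, _⟩ ⟨l', g', _, _, _, _, _⟩ h
    simp only [Prod.mk.injEq] at h
    obtain ⟨rfl, rfl⟩ := h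
    rfl
  · exact fun p => ⟨p.levC, p.mem, p.res, p.inj⟩
  · exact fun p => p.sgn
  · intro l g h h'
    exact ⟨⟨l, g, h.levC, h.mem, h.res, h.inj, h'⟩, rfl⟩
  · intro l₀ g₀ ζ R δ l g δ' l' g' h
    exact h.sgS hT.down hS.down
  · intro ζ ζ' p h1 h2 ξ hξ
    exact h2 ξ (h1.trans hξ)
  · intro δ hδ p h1 h2 h3 h4
    have h5 := hT.fin p.1 h1 p.2 (hST h2) (h3.trans h4.symm)
    have h6 : ∀ ξ ∈ h5.toFinset, ξ < δ := by
      intro ξ hξ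
      by_contra hcon
      have h7 : p.1.val ξ ≠ p.2.val ξ := by simpa using hξ
      apply h7
      rw [p.1.supp ξ (by rw [h3]; exact not_lt.1 hcon),
        p.2.supp ξ (by rw [h4]; exact not_lt.1 hcon)]
    obtain ⟨ζ, hζ, hζ'⟩ := Ev.all hδ h5.toFinset (fun ξ hξ => Ev.gt hδ (h6 ξ hξ))
    refine ⟨ζ, hζ, fun ξ hξ => ?_⟩
    by_contra hcon
    have h7 := hζ' ζ le_rfl hζ ξ (by simpa using hcon)
    exact absurd h7 (not_lt.2 hξ)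
  · intro p hp
    exact absurd hp (Finset.notMem_empty _)

end Pool.Agent.MOO.H55
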